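import Pool.Agent.Helper95.BWD.Small

/-!
# A small everywhere-dominating family implies the weak diamond for unions of `ℵ₁` analytic sets

`Om` is the set of countable ordinals. If there is an everywhere-dominating family of fewer than
`2 ^ ℵ₁` functions `Om → ℕ`, then the weak diamond holds for unions of `ℵ₁` analytic sets (all
`Σ¹₂` sets are such unions), although `2 ^ ℵ₀ = 2 ^ ℵ₁` is possible as far as is known. So the
pseudo-intersection number is `ℵ₁`, there is no `Q`-set of size `ℵ₁`, Baumgartner's axiom fails and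
no ladder system has the uniformization property.
-/

set_option autoImplicit false

open Cardinal MeasureTheory

namespace Pool.Agent.Results.MP_54d188_lc.AnalyticWeakDiamond

/-- The well-ordered set of countable ordinals (order type `ω₁`). -/
abbrev Om : Type := (ℵ₁ : Cardinal.{0}).ord.ToType

/-- Every `g : ω₁ → ω` is exceeded everywhere by some member of `F`. -/
def EverywhereDominating (F : Set (Om → ℕ)) : Prop :=
  ∀ g : Om → ℕ, ∃ f ∈ F, ∀ a, g a < f a

/-- Closed unbounded sets of countable ordinals. -/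
def IsClub (C : Set Om) : Prop :=
  (∀ a, ∃ c ∈ C, a < c) ∧
    ∀ d, (∃ a, a < d) → (∀ a, a < d → ∃ c ∈ C, a < c ∧ c < d) → d ∈ C

/-- Stationary sets of countable ordinals. -/
def Stationary (S : Set Om) : Prop := ∀ C, IsClub C → (S ∩ C).Nonempty

/-- **Consequences of a small everywhere-dominating family.** -/
theorem result (F : Set (Om → ℕ)) (hF : EverywhereDominating F)
    (hc : #F < (2 : Cardinal.{0}) ^ ℵ₁) :
    -- the weak diamond for unions of `ℵ₁` analytic sets
    (∀ B : ∀ d : Om, Om → Set (Set.Iio d → Bool), (∀ d i, AnalyticSet (B d i)) →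
      ∃ g : Om → Bool, ∀ h : Om → Bool,
        Stationary {d | (fun x : Set.Iio d => h x) ∈ ⋃ i, B d i ↔ g d = true}) ∧
    -- the pseudo-intersection number is `ℵ₁`
    (∃ b : Om → Set ℕ, (∀ s : Finset Om, (⋂ i ∈ s, b i).Infinite) ∧
      ¬ ∃ P : Set ℕ, P.Infinite ∧ ∀ i, (P \ b i).Finite) ∧
    -- no `Q`-set of size `ℵ₁`: some subset is not relatively analytic
    (∀ X : Set ℝ, #X = ℵ₁ → ∃ Z ⊆ X, ∀ A : Set ℝ, AnalyticSet A → Z ≠ X ∩ A) ∧
    -- two `ℵ₁`-dense sets of reals which are not isomorphic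
    (∃ A B : Set ℝ, (∀ a b : ℝ, a < b → #(A ∩ Set.Ioo a b : Set ℝ) = ℵ₁) ∧
      (∀ a b : ℝ, a < b → #(B ∩ Set.Ioo a b : Set ℝ) = ℵ₁) ∧ IsEmpty (A ≃o B)) ∧
    -- no uniformization of ladder systems
    ∀ C : Om → ℕ → Om, (∀ d, (∃ a, a < d) → ∀ n, C d n < d) →
      ∃ g : Om → Bool, ∀ h : Om → Bool,
        Stationary {d | ¬ ∀ᶠ n in Filter.atTop, h (C d n) = g d} := by
  obtain ⟨h1, h2, h3, h4, h5⟩ := Pool.Agent.Helper95.BWD.smallFamily F hF hc
  refine ⟨fun B hB => ?_, h2, h3, h4, fun C hC => ?_⟩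
  · obtain ⟨g, hg⟩ := h1 B hB
    exact ⟨g, fun h D hD => hg h D ⟨hD.1, hD.2⟩⟩
  · obtain ⟨g, hg⟩ := h5 C hC
    exact ⟨g, fun h D hD => hg h D ⟨hD.1, hD.2⟩⟩

end Pool.Agent.Results.MP_54d188_lc.AnalyticWeakDiamond
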