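import Pool.Agent.Helper86.CF.Main

/-!
# Small everywhere-dominating families and the cofinality of `([2^ℵ₀]^{≤ ℵ₁}, ⊆)`

Let `D` be the least cardinality of an everywhere-dominating family of functions `ω₁ → ω`.
We prove in ZFC:

* `D` is also the least cardinality of a family dominating modulo countable sets, and `ℵ₂ ≤ D`;
* `2^ℵ₁ = max (D, cof ([2^ℵ₀]^{≤ ℵ₁}, ⊆))`;
* a family of pairwise eventually different functions `ω₁ → K` (for example the branches of a
  tree of height `ω₁` whose set of nodes is `K`) has at most `max (D, cof ([K]^{≤ ℵ₁}, ⊆))`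
  members;
* hence a small everywhere-dominating family forces `cof ([2^ℵ₀]^{≤ ℵ₁}, ⊆) = 2^ℵ₁`.

Idea.  A function `x : ω₁ → ω₁` is coded by `γ ↦ e_γ (sup (C ∩ (γ + 1)))`, where `C` is the club of
closure points of `x` and the `e_γ` are injections of `γ + 1` into `ω`.  A bound `f` of the code
gives finite sets `A_γ`, and since only finitely many `c` lie in all late `A_γ`, the function `f`
computes (up to a countable ordinal) a bound for `x`; a second bound then catches `x` in finite
sets.  Together with cofinal sets of size `ℵ₁` all functions `ω₁ → K` are caught in finite levels,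
and a set of pairwise eventually different functions in finite levels is finite.
-/

open Cardinal Set

namespace Pool.Agent.Results.MP_54d188_lc.CofinalityFormula

/-- the well-ordered set of countable ordinals (order type `ω₁`) -/
abbrev Om : Type := (ℵ₁ : Cardinal.{0}).ord.ToType

/-- every `g : ω₁ → ω` is exceeded everywhere by some member of `F` -/
def EverywhereDominating (F : Set (Om → ℕ)) : Prop :=
  ∀ g : Om → ℕ, ∃ f ∈ F, ∀ a, g a < f a

/-- every `g : ω₁ → ω` is exceeded by some member of `F` at all but countably many places -/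
def DominatingModCountable (F : Set (Om → ℕ)) : Prop :=
  ∀ g : Om → ℕ, ∃ f ∈ F, {a | f a ≤ g a}.Countable

/-- `C` is a cofinal family in the sets of cardinality at most `ℵ₁` -/
def CofinalFamily {K : Type} (C : Set (Set K)) : Prop :=
  (∀ A ∈ C, #A ≤ ℵ₁) ∧ ∀ S : Set K, #S ≤ ℵ₁ → ∃ A ∈ C, S ⊆ A

/-- the least cardinality of an everywhere-dominating family -/
noncomputable def domNum : Cardinal.{0} :=
  sInf {κ | ∃ F : Set (Om → ℕ), EverywhereDominating F ∧ #F = κ}

/-- the least cardinality of a family dominating modulo countable sets -/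
noncomputable def domNumModCountable : Cardinal.{0} :=
  sInf {κ | ∃ F : Set (Om → ℕ), DominatingModCountable F ∧ #F = κ}

/-- the cofinality of `([K]^{≤ ℵ₁}, ⊆)` -/
noncomputable def cofNum (K : Type) : Cardinal.{0} :=
  sInf {κ | ∃ C : Set (Set K), CofinalFamily C ∧ #C = κ}

/-- **Result.** -/
theorem result :
    domNum = domNumModCountable ∧ ℵ_ 2 ≤ domNum ∧
    (2 : Cardinal.{0}) ^ ℵ₁ = max domNum (cofNum (ℕ → Bool)) ∧
    (∀ (K I : Type) (b : I → Om → K),
      (∀ i j, i ≠ j → ∃ a, ∀ c, a ≤ c → b i c ≠ b j c) → #I ≤ max domNum (cofNum K)) ∧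
    ((∃ F : Set (Om → ℕ), EverywhereDominating F ∧ #F < 2 ^ ℵ₁) →
      cofNum (ℕ → Bool) = 2 ^ ℵ₁) :=
  Pool.Agent.Helper86.CF.formula

end Pool.Agent.Results.MP_54d188_lc.CofinalityFormula
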