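import Pool.Agent.Helper85.HD.Dual

/-!
# Everywhere-dominating families and pairs of dual cardinal invariants

`Om` is the set of countable ordinals, `F` an everywhere-dominating family of functions `Om → ℕ`.

1. Let `R ⊆ X × Y`, `Y` Polish, have sections `{y | R x y}` that are unions of `ℵ₁` analytic sets (for
   example analytic).  Either at most `ℵ₁` elements of `X` have no common `R`-bound, or at most `#F`
   elements of `Y` suffice to `R`-bound all elements of `X`: `b(R) ≤ ℵ₁` or `d(R) ≤ #F`.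
2. The real line is the union of at most `#F` compact null sets.
3. If `#F < 2^ℵ₀`, the distributivity number of `P(ω)/fin` is `ℵ₁`.
-/

set_option autoImplicit false

open Cardinal Set MeasureTheory

namespace Pool.Agent.Results.MP_54d188_lc.DualInvariants

/-- the set of the countable ordinals -/
abbrev Om : Type := (ℵ₁ : Cardinal.{0}).ord.ToType

/-- every function `g : Om → ℕ` is exceeded everywhere by some member of `F` -/
def EverywhereDominating (F : Set (Om → ℕ)) : Prop :=
  ∀ g : Om → ℕ, ∃ f ∈ F, ∀ a, g a < f a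

theorem result (F : Set (Om → ℕ)) (hF : EverywhereDominating F) :
    -- (1) pairs of dual invariants
    (∀ (X Y : Type) [TopologicalSpace Y] [PolishSpace Y] (R : X → Y → Prop),
      (∀ x, ∃ A : Om → Set Y, (∀ i, AnalyticSet (A i)) ∧ {y | R x y} = ⋃ i, A i) →
        (∃ t : Om → X, ¬ ∃ y, ∀ d, R (t d) y) ∨ ∃ H : Set Y, #H ≤ #F ∧ ∀ x, ∃ y ∈ H, R x y) ∧
    -- (2) the real line is the union of `#F` compact null sets
    (∃ N : Set (Set ℝ), #N ≤ #F ∧ (∀ A ∈ N, IsCompact A ∧ volume A = 0) ∧ ⋃₀ N = Set.univ) ∧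
    -- (3) the distributivity number of `P(ω)/fin`
    (#F < 𝔠 → ∃ D : Om → Set (Set ℕ),
      (∀ d, ∀ x ∈ D d, x.Infinite ∧ ∀ y : Set ℕ, y.Infinite → (y \ x).Finite → y ∈ D d) ∧
      (∀ d, ∀ x : Set ℕ, x.Infinite → ∃ y ∈ D d, y ⊆ x) ∧ ⋂ d, D d = ∅) :=
  Pool.Agent.Helper85.HD.dualInvariants F hF

end Pool.Agent.Results.MP_54d188_lc.DualInvariants
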