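import Pool.Agent.Helper23.TF.Main

/-!
# Small everywhere-dominating families and thin families of functions on the reals

Let `F` be an everywhere-dominating family of functions `ω₁ → ω` with fewer than `2 ^ ℵ₁` members.

* `𝔟 > ℵ₁` or `non(𝒩) > ℵ₁`;
* `𝔡 > ℵ₁` or `non(ℳ) > ℵ₁`, i.e. `cof(ℳ) > ℵ₁`;
* in general, given at most `ℵ₁` functions `G i : X → ω` on a set `X` of size `2 ^ ℵ₀` and a set
  `K` with `cof ([K]^{≤ ℵ₁}, ⊆) < 2 ^ ℵ₁` (for example `#K = ℵ₁`), for some bound `f : I → ω` more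
  than `#K` points `x` of `X` satisfy `G i x ≤ f i` for all `i`.

Proof.  If all bounded sets had size at most `#K`, then the points bounded by a member of `F`,
coded with `ω₁` coordinates, would catch all sets of at most `ℵ₁` reals, so `F` would have size
`2 ^ ℵ₁` by the formula `2 ^ ℵ₁ = max (D, cof ([2 ^ ω]^{≤ ℵ₁}))`.  If `𝔟 = non(𝒩) = ℵ₁` there are
`ℵ₁` Borel functions on the Cantor set such that every infinite set is unbounded for one of them
(the last hit of a branch by a random guess of nodes, and the two Borel-Cantelli lemmas); if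
`cof(ℳ) = ℵ₁` there are `ℵ₁` Borel functions such that every nonempty set which is dense in itself
is unbounded for one of them (the first correct guess of a next node).
-/

open Cardinal Set Filter MeasureTheory

namespace Pool.Agent.Results.MP_54d188_lc.ThinFamilies

/-- the well-ordered set of countable ordinals (order type `ω₁`) -/
abbrev Om : Type := (ℵ₁ : Cardinal.{0}).ord.ToType

/-- every `g : ω₁ → ω` is exceeded everywhere by some member of `F` -/
def EverywhereDominating (F : Set (Om → ℕ)) : Prop :=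
  ∀ g : Om → ℕ, ∃ f ∈ F, ∀ a, g a < f a

/-- `C` is a cofinal family in the sets of cardinality at most `ℵ₁` -/
def CofinalFamily {K : Type} (C : Set (Set K)) : Prop :=
  (∀ A ∈ C, #A ≤ ℵ₁) ∧ ∀ S : Set K, #S ≤ ℵ₁ → ∃ A ∈ C, S ⊆ A

/-- the cofinality of `([K]^{≤ ℵ₁}, ⊆)` -/
noncomputable def cofNum (K : Type) : Cardinal.{0} :=
  sInf {κ | ∃ C : Set (Set K), CofinalFamily C ∧ #C = κ}

/-- The consequences of a small everywhere-dominating family. -/
theorem result (F : Set (Om → ℕ)) (hF : EverywhereDominating F) (hsmall : #F < 2 ^ ℵ₁) :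
    -- `𝔟 > ℵ₁` or `non(𝒩) > ℵ₁`
    ((∀ B : Set (ℕ → ℕ), #B ≤ ℵ₁ → ∃ u : ℕ → ℕ, ∀ g ∈ B, ∀ᶠ n in atTop, g n ≤ u n) ∨
      ∀ N : Set ℝ, #N ≤ ℵ₁ → volume N = 0) ∧
    -- `𝔡 > ℵ₁` or `non(ℳ) > ℵ₁`
    ((∀ D : Set (ℕ → ℕ), #D ≤ ℵ₁ → ∃ u : ℕ → ℕ, ∀ g ∈ D, ∃ᶠ n in atTop, g n < u n) ∨
      ∀ N : Set (ℕ → ℕ), #N ≤ ℵ₁ → IsMeagre N) ∧
    -- no thin family of at most `ℵ₁` integer valued functions on a set of size `2 ^ ℵ₀`
    ∀ (X I K : Type) (G : I → X → ℕ), #X = 2 ^ ℵ₀ → #I ≤ ℵ₁ → cofNum K < 2 ^ ℵ₁ →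
      ∃ f : I → ℕ, #K < #{x : X | ∀ i, G i x ≤ f i} :=
  Pool.Agent.Helper23.TF.main F hF hsmall

end Pool.Agent.Results.MP_54d188_lc.ThinFamilies
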